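import Mathlib

set_option autoImplicit false

namespace Pool.Agent.P.MP_f92aba_nt

open Finset

/-- the ratio `t! / t^t` -/
def fr (t : ℕ) : ℚ := (Nat.factorial t : ℚ) / (t : ℚ) ^ t

theorem fr_ne (t : ℕ) : fr t ≠ 0 := by
  unfold fr
  rcases Nat.eq_zero_or_pos t with rfl | h
  · simp
  · have : (t : ℚ) ≠ 0 := by exact_mod_cast h.ne'
    have h2 : (Nat.factorial t : ℚ) ≠ 0 := by exact_mod_cast (Nat.factorial_pos t).ne'
    positivity

theorem sdiff_ne {T S : Finset ℕ} (h : T ≠ S) : T \ S ≠ S \ T := fun h' => h <| by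
  ext x
  have := congrArg (fun U => x ∈ U) h'
  simp only [mem_sdiff, eq_iff_iff] at this
  tauto

theorem sdiff_prod {M : Type} [CommMonoidWithZero M] [IsCancelMulZero M] [Nontrivial M]
    {f : ℕ → M} (h0 : ∀ t, f t ≠ 0) {T S : Finset ℕ} (e : ∏ t ∈ T, f t = ∏ t ∈ S, f t) :
    ∏ t ∈ T \ S, f t = ∏ t ∈ S \ T, f t := by
  have h1 := prod_inter_mul_prod_sdiff T S f
  have h2 := prod_inter_mul_prod_sdiff S T f
  rw [inter_comm] at h2
  have h3 : ∏ t ∈ T ∩ S, f t ≠ 0 := prod_ne_zero_iff.2 fun t _ => h0 t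
  exact mul_left_cancel₀ h3 (by rw [h1, h2, e])

theorem fact_split {a b : ℕ} (h : a ≤ b) : a.factorial * ∏ i ∈ Ioc a b, i = b.factorial := by
  induction b, h using Nat.le_induction with
  | base => simp
  | succ b hb ih =>
    rw [← Nat.succ_eq_add_one, Finset.prod_Ioc_succ_top hb, ← mul_assoc, ih, Nat.factorial_succ,
      mul_comm]

theorem val_lt {N p : ℕ} (hp : p.Prime) (hN : p ≤ N) {U : Finset ℕ} (hU : U ⊆ Ioc 0 N) :
    ∑ t ∈ U, t.factorization p < 4 * (N / p) := by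
  have h1 : ∑ t ∈ U, t.factorization p ≤ ∑ t ∈ Ioc 0 N, t.factorization p :=
    sum_le_sum_of_subset hU
  have h2 : ∑ t ∈ Ioc 0 N, t.factorization p = N.factorial.factorization p := by
    rw [← fact_split (Nat.zero_le N), Nat.factorial_zero, one_mul,
      Nat.factorization_prod_apply fun t ht => (mem_Ioc.1 ht).1.ne']
  have h3 := Nat.factorization_factorial_le_div_pred hp N
  have h4 : 1 ≤ N / p := (Nat.one_le_div_iff hp.pos).2 hN
  have h5 : N < p * (N / p + 1) := Nat.lt_mul_div_succ N hp.pos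
  have h6 := hp.two_le
  have h7 : N / (p - 1) < 4 * (N / p) := by
    rw [Nat.div_lt_iff_lt_mul (by omega)]
    obtain ⟨k, rfl⟩ : ∃ k, p = k + 2 := ⟨p - 2, by omega⟩
    rw [show k + 2 - 1 = k + 1 from rfl]
    nlinarith
  omega

theorem val_zero {N p : ℕ} (hp : ¬ (p ≤ N ∧ p.Prime)) {t : ℕ} (ht : t ∈ Ioc 0 N) :
    t.factorization p = 0 := by
  by_cases h : p.Prime
  · exact Nat.factorization_eq_zero_of_not_dvd fun hd =>
      hp ⟨(Nat.le_of_dvd (mem_Ioc.1 ht).1 hd).trans (mem_Ioc.1 ht).2, h⟩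
  · exact Nat.factorization_eq_zero_of_not_prime _ h

theorem val_pow (p : ℕ) {U : Finset ℕ} (hU : ∀ t ∈ U, t ≠ 0) :
    (∏ t ∈ U, t ^ t).factorization p = p * ∑ t ∈ U, t / p * t.factorization p := by
  rw [Nat.factorization_prod_apply fun t ht => pow_ne_zero _ (hU t ht), mul_sum]
  refine sum_congr rfl fun t _ => ?_
  rw [Nat.factorization_pow, Finsupp.smul_apply, smul_eq_mul, ← mul_assoc]
  by_cases h : p ∣ t
  · rw [Nat.mul_div_cancel' h]
  · rw [Nat.factorization_eq_zero_of_not_dvd h, mul_zero, mul_zero]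

theorem pigeon {N : ℕ} (J : Finset ℕ) (U T : Finset ℕ → Finset ℕ)
    (hU : ∀ σ ⊆ J, U σ ⊆ Ioc 0 N) (hT : ∀ σ, T σ ⊆ Ioc 0 N)
    (hc : ∏ p ∈ Nat.primesLE N, 16 * (N / p) ^ 3 < 2 ^ J.card) :
    ∃ σ ⊆ J, ∃ τ ⊆ J, σ ≠ τ ∧ ∏ i ∈ U σ, i = ∏ i ∈ U τ, i ∧
      ∏ t ∈ T σ, t ^ t = ∏ t ∈ T τ, t ^ t := by
  have hcard : (Fintype.piFinset fun p : ↥(Nat.primesLE N) =>
      range (4 * (N / p)) ×ˢ range (4 * (N / p) ^ 2)).card < J.powerset.card := by
    rw [Fintype.card_piFinset, card_powerset]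
    refine lt_of_eq_of_lt ?_ hc
    rw [← prod_coe_sort (Nat.primesLE N)]
    refine prod_congr rfl fun p _ => ?_
    rw [card_product, card_range, card_range]
    ring
  obtain ⟨σ, hσ, τ, hτ, hne, e⟩ := exists_ne_map_eq_of_card_lt_of_maps_to hcard
    (f := fun σ (p : ↥(Nat.primesLE N)) =>
      (∑ i ∈ U σ, i.factorization p, ∑ t ∈ T σ, t / p * t.factorization p)) fun σ hσ => by
      refine mem_coe.2 (Fintype.mem_piFinset.2 fun p => mem_product.2 ⟨mem_range.2 ?_,
        mem_range.2 ?_⟩)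
      · exact val_lt (Nat.mem_primesLE.1 p.2).2 (Nat.mem_primesLE.1 p.2).1
          (hU σ (mem_powerset.1 hσ))
      · have h1 := val_lt (Nat.mem_primesLE.1 p.2).2 (Nat.mem_primesLE.1 p.2).1 (hT σ)
        have h2 : ∑ t ∈ T σ, t / p * t.factorization p ≤
            N / p * ∑ t ∈ T σ, t.factorization p := by
          rw [mul_sum]
          exact sum_le_sum fun t ht =>
            Nat.mul_le_mul_right _ (Nat.div_le_div_right (mem_Ioc.1 (hT σ ht)).2)
        have h3 : 0 < N / p := by omega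
        have h4 := Nat.mul_lt_mul_of_pos_left h1 h3
        exact h2.trans_lt (h4.trans_eq (by ring))
  have hU0 : ∀ ρ ⊆ J, ∀ i ∈ U ρ, i ≠ 0 := fun ρ hρ i hi => (mem_Ioc.1 (hU ρ hρ hi)).1.ne'
  have hT0 : ∀ ρ, ∀ i ∈ T ρ, i ≠ 0 := fun ρ i hi => (mem_Ioc.1 (hT ρ hi)).1.ne'
  have hσ' := mem_powerset.1 hσ
  have hτ' := mem_powerset.1 hτ
  refine ⟨σ, hσ', τ, hτ', hne, Nat.eq_of_factorization_eq (prod_ne_zero_iff.2 (hU0 σ hσ'))
    (prod_ne_zero_iff.2 (hU0 τ hτ')) fun p => ?_, Nat.eq_of_factorization_eq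
    (prod_ne_zero_iff.2 fun t ht => pow_ne_zero _ (hT0 σ t ht))
    (prod_ne_zero_iff.2 fun t ht => pow_ne_zero _ (hT0 τ t ht)) fun p => ?_⟩
  · rw [Nat.factorization_prod_apply (hU0 σ hσ'), Nat.factorization_prod_apply (hU0 τ hτ')]
    by_cases hp : p ≤ N ∧ p.Prime
    · exact congrArg Prod.fst (congrFun e ⟨p, Nat.mem_primesLE.2 hp⟩)
    · rw [sum_eq_zero fun t ht => val_zero hp (hU σ hσ' ht),
        sum_eq_zero fun t ht => val_zero hp (hU τ hτ' ht)]
  · rw [val_pow p (hT0 σ), val_pow p (hT0 τ)]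
    by_cases hp : p ≤ N ∧ p.Prime
    · exact congrArg (fun z => p * z.2) (congrFun e ⟨p, Nat.mem_primesLE.2 hp⟩)
    · rw [sum_eq_zero fun t ht => by rw [val_zero hp (hT σ ht), mul_zero],
        sum_eq_zero fun t ht => by rw [val_zero hp (hT τ ht), mul_zero]]

theorem core {N : ℕ} {A : Finset ℕ} (hA : A ⊆ Ioc 0 N)
    (hc : ∏ p ∈ Nat.primesLE N, 16 * (N / p) ^ 3 < 2 ^ (A.card / 2)) :
    ∃ T ⊆ A, ∃ S ⊆ A, T ≠ S ∧ Disjoint T S ∧ T.card = S.card ∧
      ∏ t ∈ T, t.factorial = ∏ t ∈ S, t.factorial ∧ ∏ t ∈ T, fr t = ∏ t ∈ S, fr t := by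
  have hf : (Set.ofPred fun t => t ∈ A).Finite := A.finite_toSet
  have hfc : hf.toFinset.card = A.card := congrArg card (Finset.ext fun x => hf.mem_toFinset)
  set a := Nat.nth fun t => t ∈ A with ha
  have hmem : ∀ i < A.card, a i ∈ A := fun i hi => Nat.nth_mem_of_lt_card hf (hfc ▸ hi)
  have hlt : ∀ i j, i < j → j < A.card → a i < a j := fun i j h hj =>
    Nat.nth_lt_nth_of_lt_card hf h (hfc ▸ hj)
  set J := range (A.card / 2) with hJ
  have hJm : ∀ j ∈ J, 2 * j + 1 < A.card := fun j hj => by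
    have := mem_range.1 hj
    omega
  have hord : ∀ j ∈ J, a (2 * j) < a (2 * j + 1) := fun j hj => hlt _ _ (by omega) (hJm j hj)
  set g : Finset ℕ → ℕ → ℕ := fun ρ j => if j ∈ ρ then 2 * j + 1 else 2 * j with hg
  have hg1 : ∀ ρ j, 2 * j ≤ g ρ j ∧ g ρ j ≤ 2 * j + 1 := fun ρ j => by
    simp only [hg]
    split_ifs <;> omega
  have hinj : ∀ i j, i < A.card → j < A.card → a i = a j → i = j := fun i j hi hj e => by
    rcases lt_trichotomy i j with h | h | h
    · exact absurd e (hlt i j h hj).ne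
    · exact h
    · exact absurd e (hlt j i h hi).ne'
  have hgl : ∀ ρ, ∀ j ∈ J, g ρ j < A.card := fun ρ j hj => (hg1 ρ j).2.trans_lt (hJm j hj)
  have hio : ∀ ρ, Set.InjOn (fun j => a (g ρ j)) J := fun ρ i hi j hj e => by
    have := hinj _ _ (hgl ρ i hi) (hgl ρ j hj) e
    have h1 := hg1 ρ i
    have h2 := hg1 ρ j
    omega
  have hsub : ∀ ρ, J.image (fun j => a (g ρ j)) ⊆ A := fun ρ t ht => by
    obtain ⟨j, hj, rfl⟩ := mem_image.1 ht
    exact hmem _ (hgl ρ j hj)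
  obtain ⟨σ, hσ, τ, hτ, hne, e1, e2⟩ := pigeon (N := N) J
    (fun ρ => ρ.biUnion fun j => Ioc (a (2 * j)) (a (2 * j + 1)))
    (fun ρ => J.image fun j => a (g ρ j))
    (fun ρ hρ i hi => by
      obtain ⟨j, hj, hi⟩ := mem_biUnion.1 hi
      have h1 := mem_Ioc.1 (hA (hmem _ (hJm j (hρ hj))))
      have h2 := mem_Ioc.1 hi
      exact mem_Ioc.2 ⟨by omega, by omega⟩)
    (fun ρ => (hsub ρ).trans hA) (by rwa [hJ, card_range])
  have hprod : ∀ ρ ⊆ J, ∏ t ∈ J.image (fun j => a (g ρ j)), t.factorial =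
      (∏ j ∈ J, (a (2 * j)).factorial) *
        ∏ i ∈ ρ.biUnion fun j => Ioc (a (2 * j)) (a (2 * j + 1)), i := by
    intro ρ hρ
    rw [prod_image, prod_biUnion, ← inter_eq_right.2 hρ, ← prod_ite_mem, ← prod_mul_distrib,
      inter_eq_right.2 hρ]
    · refine prod_congr rfl fun j hj => ?_
      simp only [hg]
      split_ifs
      · exact (fact_split (hord j hj).le).symm
      · rw [mul_one]
    · intro i hi j hj hij
      refine disjoint_left.2 fun x h1 h2 => ?_
      have h1 := mem_Ioc.1 h1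
      have h2 := mem_Ioc.1 h2
      have h3 := hJm i (hρ hi)
      have h4 := hJm j (hρ hj)
      rcases lt_or_gt_of_ne hij with h | h
      · have := hlt (2 * i + 1) (2 * j) (by omega) (by omega)
        omega
      · have := hlt (2 * j + 1) (2 * i) (by omega) (by omega)
        omega
    · exact hio ρ
  have hq : ∀ V : Finset ℕ, ∏ t ∈ V, fr t =
      ((∏ t ∈ V, t.factorial : ℕ) : ℚ) / ((∏ t ∈ V, t ^ t : ℕ) : ℚ) := fun V => by
    simp only [fr, prod_div_distrib]
    push_cast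
    rfl
  have hne' : J.image (fun j => a (g σ j)) ≠ J.image (fun j => a (g τ j)) := by
    intro h
    have key : ∀ ρ ρ' : Finset ℕ, ρ ⊆ J →
        J.image (fun j => a (g ρ j)) = J.image (fun j => a (g ρ' j)) → ρ ⊆ ρ' := by
      intro ρ ρ' hρ h j hj
      obtain ⟨i, hi, e⟩ := mem_image.1 (h ▸ mem_image_of_mem (fun j => a (g ρ j)) (hρ hj))
      have h1 := hinj _ _ (hgl ρ' i hi) (hgl ρ j (hρ hj)) e
      simp only [hg, if_pos hj] at h1
      split_ifs at h1 with h2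
      · exact (by omega : i = j) ▸ h2
      · omega
    exact hne (Subset.antisymm (key σ τ hσ h) (key τ σ hτ h.symm))
  exact ⟨_, sdiff_subset.trans (hsub σ), _, sdiff_subset.trans (hsub τ), sdiff_ne hne',
    disjoint_sdiff_sdiff,
    card_sdiff_comm (by rw [card_image_of_injOn (hio σ), card_image_of_injOn (hio τ)]),
    sdiff_prod Nat.factorial_ne_zero (by rw [hprod σ hσ, hprod τ hτ, e1]),
    sdiff_prod fr_ne (by rw [hq, hq, hprod σ hσ, hprod τ hτ, e1, e2])⟩

open Filter Real in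
theorem count_le : ∃ c : ℝ, ∀ᶠ N : ℕ in atTop,
    log ((∏ p ∈ Nat.primesLE N, 16 * (N / p) ^ 3 : ℕ) : ℝ) ≤ c * N / log N := by
  obtain ⟨c, hc⟩ := Chebyshev.primeCounting_sub_theta_div_log_isBigO.bound
  refine ⟨log 16 * (log 4 + 1) + 3 * c, ?_⟩
  filter_upwards [tendsto_natCast_atTop_atTop.eventually hc,
    tendsto_natCast_atTop_atTop.eventually (Chebyshev.eventually_primeCounting_le one_pos),
    eventually_ge_atTop 2] with N h1 h2 h3
  rw [Nat.floor_natCast] at h1 h2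
  have hN : (1 : ℝ) < N := by exact_mod_cast h3
  have hL : 0 < log N := log_pos hN
  have h4 : log ((∏ p ∈ Nat.primesLE N, 16 * (N / p) ^ 3 : ℕ) : ℝ) ≤
      ∑ p ∈ Nat.primesLE N, (log 16 + 3 * (log N - log p)) := by
    have h0 : ∀ p ∈ Nat.primesLE N, (0 : ℝ) < ((N / p : ℕ) : ℝ) := fun p hp => by
      exact_mod_cast Nat.div_pos (Nat.mem_primesLE.1 hp).1 (Nat.mem_primesLE.1 hp).2.pos
    rw [Nat.cast_prod, log_prod fun p hp => by
      have := h0 p hp
      push_cast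
      positivity]
    refine sum_le_sum fun p hp => ?_
    have hp0 : (0 : ℝ) < p := by exact_mod_cast (Nat.mem_primesLE.1 hp).2.pos
    have h5 := log_le_log (h0 p hp) (Nat.cast_div_le (m := N) (n := p))
    rw [log_div (by linarith) hp0.ne'] at h5
    rw [Nat.cast_mul, Nat.cast_pow, log_mul (by norm_num) (pow_ne_zero _ (h0 p hp).ne'), log_pow]
    push_cast
    linarith
  rw [sum_add_distrib, ← mul_sum, sum_sub_distrib, sum_const, sum_const,
    Nat.primesLE_card_eq_primeCounting, ← Chebyshev.theta_eq_sum_primesLE_log, nsmul_eq_mul,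
    nsmul_eq_mul] at h4
  rw [norm_of_nonneg (show (0 : ℝ) ≤ N / log N ^ 2 by positivity)] at h1
  have h5 := mul_le_mul_of_nonneg_right ((le_abs_self _).trans h1) hL.le
  have h6 : ((N.primeCounting : ℝ) - Chebyshev.theta N / log N) * log N =
      N.primeCounting * log N - Chebyshev.theta N := by field_simp
  have h7 : c * (N / log N ^ 2) * log N = c * N / log N := by field_simp
  have h8 : 0 < log (16 : ℝ) := log_pos (by norm_num)
  have h9 := mul_le_mul_of_nonneg_right h2 h8.le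
  have h10 : (log 16 * (log 4 + 1) + 3 * c) * N / log N =
      (log 4 + 1) * N / log N * log 16 + 3 * (c * N / log N) := by ring
  rw [h6, h7] at h5
  linarith

open Filter Real in
theorem main : ∃ C : ℝ, ∀ᶠ N : ℕ in atTop, ∀ A ⊆ Ioc 0 N, C * N / log N ≤ A.card →
    ∃ T ⊆ A, ∃ S ⊆ A, T ≠ S ∧ Disjoint T S ∧ T.card = S.card ∧
      ∏ t ∈ T, t.factorial = ∏ t ∈ S, t.factorial ∧ ∏ t ∈ T, fr t = ∏ t ∈ S, fr t := by
  obtain ⟨c, hc⟩ := count_le
  refine ⟨4 * |c| + 2, ?_⟩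
  filter_upwards [hc, eventually_ge_atTop 2] with N h1 h3 A hA h4
  refine core hA ?_
  have hN : (1 : ℝ) < N := by exact_mod_cast h3
  have hL : 0 < log N := log_pos hN
  have h5 : (0 : ℝ) < ((∏ p ∈ Nat.primesLE N, 16 * (N / p) ^ 3 : ℕ) : ℝ) := by
    exact_mod_cast prod_pos fun p hp => by
      have := Nat.div_pos (Nat.mem_primesLE.1 hp).1 (Nat.mem_primesLE.1 hp).2.pos
      positivity
  have h6 : (1 : ℝ) ≤ N / log N := by
    rw [one_le_div hL]
    exact (log_le_sub_one_of_pos (by linarith)).trans (by linarith)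
  have h7 : (A.card : ℝ) ≤ 2 * ((A.card / 2 : ℕ) : ℝ) + 1 := by
    exact_mod_cast (by omega : A.card ≤ 2 * (A.card / 2) + 1)
  have h8 : c * N / log N ≤ |c| * (N / log N) := by
    rw [mul_div_assoc]
    exact mul_le_mul_of_nonneg_right (le_abs_self c) (by linarith)
  have h9 : (4 * |c| + 2) * N / log N = 4 * (|c| * (N / log N)) + 2 * (N / log N) := by ring
  have h10 := log_two_gt_d9
  have h11 : (0 : ℝ) ≤ ((A.card / 2 : ℕ) : ℝ) := Nat.cast_nonneg _
  have h12 : log ((∏ p ∈ Nat.primesLE N, 16 * (N / p) ^ 3 : ℕ) : ℝ) <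
      log ((2 ^ (A.card / 2) : ℕ) : ℝ) := by
    rw [Nat.cast_pow, log_pow, Nat.cast_ofNat]
    have := mul_nonneg (abs_nonneg c) (le_trans zero_le_one h6)
    nlinarith
  exact_mod_cast (log_lt_log_iff h5 (by positivity)).1 h12

/-- sets of primes carry no relation -/
theorem primes_free {T S : Finset ℕ} (hT : ∀ t ∈ T, t.Prime) (hS : ∀ t ∈ S, t.Prime)
    (e : ∏ t ∈ T, fr t = ∏ t ∈ S, fr t) : T = S := by
  by_contra hne
  have key : ∀ U V : Finset ℕ, (∀ t ∈ U, t.Prime) → (∀ t ∈ V, t.Prime) → ∀ p ∈ U,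
      (∀ t ∈ U, t ≤ p) → (∀ t ∈ V, t < p) → ∏ t ∈ U, fr t ≠ ∏ t ∈ V, fr t := by
    intro U V hU hV p hp h1 h2 e
    have : Fact p.Prime := ⟨hU p hp⟩
    have hv : ∀ t, t.Prime → padicValRat p (fr t) =
        (padicValNat p t.factorial : ℤ) - t * padicValNat p t := fun t ht => by
      have h3 : (t : ℚ) ≠ 0 := by exact_mod_cast ht.ne_zero
      rw [fr, padicValRat.div (by exact_mod_cast t.factorial_ne_zero) (pow_ne_zero _ h3),
        padicValRat.pow, padicValRat.of_nat, padicValRat.of_nat]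
    have hlt : ∀ t, t.Prime → t < p → padicValRat p (fr t) = 0 := fun t ht h => by
      rw [hv t ht, padicValNat.eq_zero_of_not_dvd (Nat.not_dvd_of_pos_of_lt ht.pos h),
        padicValNat.eq_zero_of_not_dvd
          (fun hd => absurd ((hU p hp).dvd_factorial.1 hd) h.not_ge)]
      simp
    have hz : ∀ W : Finset ℕ, (∀ t ∈ W, t.Prime ∧ t < p) → padicValRat p (∏ t ∈ W, fr t) = 0 := by
      intro W
      induction W using Finset.induction_on with
      | empty => simp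
      | insert x W hx ih =>
        intro h
        rw [prod_insert hx, padicValRat.mul (fr_ne x) (prod_ne_zero_iff.2 fun t _ => fr_ne t),
          ih fun t ht => h t (mem_insert_of_mem ht), hlt x (h x (mem_insert_self _ _)).1
            (h x (mem_insert_self _ _)).2, add_zero]
    have h4 := hz V fun t ht => ⟨hV t ht, h2 t ht⟩
    rw [← e, ← mul_prod_erase U fr hp, padicValRat.mul (fr_ne p)
      (prod_ne_zero_iff.2 fun t _ => fr_ne t), hz _ (fun t ht => ⟨hU t (mem_of_mem_erase ht),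
        lt_of_le_of_ne (h1 t (mem_of_mem_erase ht)) (ne_of_mem_erase ht)⟩), add_zero,
      hv p (hU p hp), padicValNat_self] at h4
    have h5 := padicValNat_factorial_lt_of_ne_zero p (hU p hp).ne_zero
    rw [Nat.cast_one, mul_one] at h4
    omega
  have e' := sdiff_prod fr_ne e
  have hne' : (T \ S ∪ S \ T).Nonempty := by
    rw [nonempty_iff_ne_empty, Ne, union_eq_empty]
    exact fun h => sdiff_ne hne (h.1.trans h.2.symm)
  obtain ⟨p, hp, hm⟩ := exists_max_image _ id hne'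
  have d : ∀ t ∈ T \ S, t ∉ S \ T := fun t h1 h2 => (mem_sdiff.1 h1).2 (mem_sdiff.1 h2).1
  rcases mem_union.1 hp with h | h
  · exact key _ _ (fun t ht => hT t (mem_sdiff.1 ht).1) (fun t ht => hS t (mem_sdiff.1 ht).1) p h
      (fun t ht => hm t (mem_union_left _ ht)) (fun t ht => lt_of_le_of_ne
        (hm t (mem_union_right _ ht)) fun q => d p h (q ▸ ht)) e'
  · exact key _ _ (fun t ht => hS t (mem_sdiff.1 ht).1) (fun t ht => hT t (mem_sdiff.1 ht).1) p h
      (fun t ht => hm t (mem_union_right _ ht)) (fun t ht => lt_of_le_of_ne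
        (hm t (mem_union_left _ ht)) fun q => d t ht (q ▸ h)) e'.symm

end Pool.Agent.P.MP_f92aba_nt
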