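import Mathlib

/-! Relations between the numbers `t! / t^t` inside short intervals. -/

namespace Pool.Agent.P.MP_f92aba_nt.Short

open Finset Filter

theorem blocks (N y L : ℕ) : y.factorial ^ L ∣ ∏ i ∈ range (L * y), (N + 1 + i) := by
  induction L with
  | zero => simp
  | succ L ih =>
    rw [Nat.succ_mul, prod_range_add, pow_succ]
    refine mul_dvd_mul ih ?_
    have h := Nat.factorial_dvd_ascFactorial (N + 1 + L * y) y
    rw [Nat.ascFactorial_eq_prod_range] at h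
    simpa only [add_assoc] using h

theorem pow_self_le (y : ℕ) : y ^ y ≤ 3 ^ y * y.factorial := by
  have h1 := Real.pow_div_factorial_le_exp (y : ℝ) (Nat.cast_nonneg y) y
  have h2 : Real.exp y ≤ 3 ^ y := by
    rw [← mul_one (y : ℝ), Real.exp_nat_mul]
    exact pow_le_pow_left₀ (Real.exp_pos 1).le (by linarith [Real.exp_one_lt_d9]) y
  rw [div_le_iff₀ (by exact_mod_cast y.factorial_pos)] at h1
  exact_mod_cast h1.trans (mul_le_mul_of_nonneg_right h2 (Nat.cast_nonneg _))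

/-- few members of the interval have a prime factor above `y` -/
theorem bad_le {N y L P : ℕ} (hP : L * y = 2 * P) (hN : 2 * P ≤ N) (hy : 72 * N ^ 2 ≤ y ^ 3)
    (hy0 : 0 < y) (B : Finset ℕ) (hB : B ⊆ range (2 * P))
    (hb : ∀ i ∈ B, ∃ p, p.Prime ∧ y < p ∧ p ∣ N + 1 + i) : y ^ #B * 2 ^ P ≤ y ^ P := by
  choose! q hq using hb
  have h1 : ∏ i ∈ B, q i ∣ ∏ i ∈ range (2 * P), (N + 1 + i) :=
    (prod_dvd_prod_of_dvd _ _ fun i hi => (hq i hi).2.2).trans (prod_dvd_prod_of_subset _ _ _ hB)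
  have h2 : Nat.Coprime (y.factorial ^ L) (∏ i ∈ B, q i) := by
    refine Nat.Coprime.pow_left _ (Nat.Coprime.prod_right fun i hi => Nat.Coprime.symm ?_)
    rw [(hq i hi).1.coprime_iff_not_dvd, (hq i hi).1.dvd_factorial]
    exact not_le.2 (hq i hi).2.1
  have h3 := Nat.le_of_dvd (prod_pos fun i _ => by omega)
    (h2.mul_dvd_of_dvd_of_dvd (hP ▸ blocks N y L) h1)
  have h4 : y ^ #B ≤ ∏ i ∈ B, q i := pow_card_le_prod _ _ _ fun i hi => (hq i hi).2.1.le
  have h5 : ∏ i ∈ range (2 * P), (N + 1 + i) ≤ (2 * N) ^ (2 * P) := by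
    have h := prod_le_pow_card (range (2 * P)) (fun i => N + 1 + i) (2 * N) fun i hi => by
      have := mem_range.1 hi
      omega
    rwa [card_range] at h
  have h6 : y ^ (2 * P) ≤ 3 ^ (2 * P) * y.factorial ^ L := by
    rw [← hP, mul_comm L, pow_mul, pow_mul, ← mul_pow]
    exact Nat.pow_le_pow_left (pow_self_le y) L
  have h7 : 3 ^ (2 * P) * (2 * N) ^ (2 * P) * 2 ^ P ≤ y ^ (2 * P) * y ^ P := by
    rw [← pow_add, show 2 * P + P = 3 * P by ring, pow_mul, pow_mul, pow_mul, ← mul_pow, ← mul_pow]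
    exact Nat.pow_le_pow_left (by linarith) P
  refine Nat.le_of_mul_le_mul_left (le_trans ?_ h7) (pow_pos hy0 (2 * P))
  rw [← mul_assoc]
  refine Nat.mul_le_mul_right _ ?_
  calc y ^ (2 * P) * y ^ #B ≤ 3 ^ (2 * P) * y.factorial ^ L * ∏ i ∈ B, q i := Nat.mul_le_mul h6 h4
    _ ≤ 3 ^ (2 * P) * (2 * N) ^ (2 * P) := by
      rw [mul_assoc]
      exact Nat.mul_le_mul_left _ (h3.trans h5)

/-- many pairs of neighbours have only small prime factors -/
theorem good {N y L P : ℕ} (hP : L * y = 2 * P) (hN : 2 * P ≤ N) (hy : 72 * N ^ 2 ≤ y ^ 3)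
    (hy0 : 0 < y) : ∃ G ⊆ range P, 2 ^ P ≤ y ^ #G ∧ ∀ j ∈ G, ∀ p, p.Prime →
      (p ∣ N + 1 + 2 * j ∨ p ∣ N + 1 + 2 * j + 1) → p ≤ y := by
  classical
  let B := (range (2 * P)).filter fun i => ∃ p, p.Prime ∧ y < p ∧ p ∣ N + 1 + i
  have h1 := bad_le hP hN hy hy0 B (filter_subset _ _) fun i hi => (mem_filter.1 hi).2
  refine ⟨range P \ B.image (· / 2), sdiff_subset, ?_, fun j hj p hp h => ?_⟩
  · have h2 := le_card_sdiff (B.image (· / 2)) (range P)
    have h3 : #(B.image (· / 2)) ≤ #B := card_image_le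
    rw [card_range] at h2
    refine Nat.le_of_mul_le_mul_left (h1.trans ?_) (pow_pos hy0 #B)
    rw [← pow_add]
    exact Nat.pow_le_pow_right hy0 (by omega)
  · obtain ⟨h2, h3⟩ := mem_sdiff.1 hj
    have h4 := mem_range.1 h2
    by_contra h5
    rcases h with h | h
    · exact h3 (mem_image.2 ⟨2 * j, mem_filter.2 ⟨mem_range.2 (by omega), p, hp, not_le.1 h5, h⟩,
        by omega⟩)
    · exact h3 (mem_image.2 ⟨2 * j + 1, mem_filter.2 ⟨mem_range.2 (by omega), p, hp, not_le.1 h5,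
        h⟩, by omega⟩)

/-- two different choices give the same product -/
theorem pigeon {N y P : ℕ} (hN : 2 * P ≤ N) (G : Finset ℕ) (hG : G ⊆ range P)
    (hs : ∀ j ∈ G, ∀ p, p.Prime → (p ∣ N + 1 + 2 * j ∨ p ∣ N + 1 + 2 * j + 1) → p ≤ y)
    (hc : (4 * N ^ 3 + 1) ^ y.primeCounting < 2 ^ #G) : ∃ J ⊆ G, ∃ J' ⊆ G, J ≠ J' ∧
      ∏ j ∈ G, (if j ∈ J then N + 1 + 2 * j else N + 1 + 2 * j + 1) ^ (N + 1 + 2 * j) =
        ∏ j ∈ G, (if j ∈ J' then N + 1 + 2 * j else N + 1 + 2 * j + 1) ^ (N + 1 + 2 * j) := by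
  classical
  obtain ⟨M, hM⟩ : ∃ M : Finset ℕ → ℕ, ∀ J, M J =
      ∏ j ∈ G, (if j ∈ J then N + 1 + 2 * j else N + 1 + 2 * j + 1) ^ (N + 1 + 2 * j) :=
    ⟨_, fun _ => rfl⟩
  have h0 : ∀ (J : Finset ℕ) (j : ℕ),
      (if j ∈ J then N + 1 + 2 * j else N + 1 + 2 * j + 1) ≠ 0 := fun J j => by
    split_ifs <;> omega
  have hG' : #G ≤ N := by
    have := card_le_card hG
    rw [card_range] at this
    omega
  have hv : ∀ J p, (M J).factorization p ≤ 4 * N ^ 3 := by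
    intro J p
    rw [hM, Nat.factorization_prod fun j _ => pow_ne_zero _ (h0 J j), Finsupp.finsetSum_apply]
    refine (sum_le_card_nsmul _ _ (2 * N * (2 * N)) fun j hj => ?_).trans ?_
    · have h1 := mem_range.1 (hG hj)
      have h2 := Nat.factorization_lt p (h0 J j)
      rw [Nat.factorization_pow, Finsupp.smul_apply, smul_eq_mul]
      refine Nat.mul_le_mul (by omega) (h2.le.trans ?_)
      split_ifs <;> omega
    · rw [smul_eq_mul]
      calc #G * (2 * N * (2 * N)) ≤ N * (2 * N * (2 * N)) := Nat.mul_le_mul_right _ hG'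
        _ = 4 * N ^ 3 := by ring
  have hz : ∀ J p, p ∉ Nat.primesLE y → (M J).factorization p = 0 := by
    intro J p hp
    by_cases h1 : p.Prime
    · refine Nat.factorization_eq_zero_of_not_dvd fun h2 => ?_
      rw [hM] at h2
      obtain ⟨j, hj, h3⟩ := (Prime.dvd_finsetProd_iff h1.prime _).1 h2
      have h4 := h1.dvd_of_dvd_pow h3
      refine hp (Nat.mem_primesLE.2 ⟨hs j hj p h1 ?_, h1⟩)
      split_ifs at h4
      exacts [Or.inl h4, Or.inr h4]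
    · exact Nat.factorization_eq_zero_of_not_prime _ h1
  obtain ⟨J, hJ, J', hJ', h1, h2⟩ := exists_ne_map_eq_of_card_lt_of_maps_to
    (s := G.powerset) (t := Fintype.piFinset fun _ : ↥(Nat.primesLE y) => range (4 * N ^ 3 + 1))
    (f := fun J p => (M J).factorization p)
    (by rwa [Fintype.card_piFinset, prod_const, card_range, card_univ, Fintype.card_coe,
      Nat.primesLE_card_eq_primeCounting, card_powerset])
    fun J _ => mem_coe.2 (Fintype.mem_piFinset.2 fun p => mem_range.2 (Nat.lt_succ_of_le (hv J p)))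
  refine ⟨J, mem_powerset.1 hJ, J', mem_powerset.1 hJ', h1, ?_⟩
  rw [← hM, ← hM]
  have hne : ∀ J, M J ≠ 0 := fun J => hM J ▸ prod_ne_zero_iff.2 fun j _ => pow_ne_zero _ (h0 J j)
  refine Nat.eq_of_factorization_eq (hne J) (hne J') fun p => ?_
  by_cases hp : p ∈ Nat.primesLE y
  · exact congrFun h2 ⟨p, hp⟩
  · rw [hz J p hp, hz J' p hp]

theorem step (t : ℕ) (ht : t ≠ 0) :
    (((t + 1).factorial : ℚ) / ((t + 1 : ℕ) : ℚ) ^ (t + 1)) * ((t + 1 : ℕ) : ℚ) ^ t =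
      ((t.factorial : ℚ) / (t : ℚ) ^ t) * (t : ℚ) ^ t := by
  have h1 : ((t + 1 : ℕ) : ℚ) ≠ 0 := Nat.cast_ne_zero.2 t.succ_ne_zero
  have h2 : (t : ℚ) ≠ 0 := Nat.cast_ne_zero.2 ht
  rw [Nat.factorial_succ, Nat.cast_mul, pow_succ]
  field_simp

/-- the relation, with natural parameters -/
theorem core {N z l : ℕ} (hz : 0 < z) (hl : 0 < l) (hy : 72 * N ^ 2 ≤ (2 * z) ^ 3) (hN : N < 2 ^ l)
    (hπ : l * (2 * z).primeCounting ≤ 14 * z) (hH : 120 * l * z ≤ N) : ∃ T S : Finset ℕ,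
      (∀ t ∈ T ∪ S, N < t ∧ t ≤ N + 120 * l * z) ∧ T ≠ S ∧ Disjoint T S ∧ #T = #S ∧
        ∏ t ∈ T, ((t.factorial : ℚ) / (t : ℚ) ^ t) = ∏ u ∈ S, ((u.factorial : ℚ) / (u : ℚ) ^ u) := by
  classical
  obtain ⟨P, hP⟩ : ∃ P, P = 60 * l * z := ⟨_, rfl⟩
  have hP2 : 120 * l * z = 2 * P := by rw [hP]; ring
  rw [hP2] at hH ⊢
  obtain ⟨G, hG, h1, hs⟩ := good (N := N) (y := 2 * z) (L := 60 * l) (P := P)
    (by rw [hP]; ring) hH hy (by omega)
  have h2 : 2 * z ≤ 2 ^ l := by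
    nlinarith
  have h3 : P ≤ l * #G := by
    rw [← Nat.pow_le_pow_iff_right (a := 2) (by norm_num), pow_mul]
    exact h1.trans (Nat.pow_le_pow_left h2 _)
  have h4 : 60 * z ≤ #G := Nat.le_of_mul_le_mul_left (by rw [hP] at h3; linarith) hl
  have h5 : 4 * N ^ 3 + 1 ≤ 2 ^ (l * 4) := by
    rw [pow_mul]
    refine le_trans ?_ (Nat.pow_le_pow_left (Nat.succ_le_of_lt hN) 4)
    rw [Nat.succ_eq_add_one, show (N + 1) ^ 4 = 4 * N ^ 3 + 1 + (N ^ 4 + 6 * N ^ 2 + 4 * N) by ring]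
    exact Nat.le_add_right _ _
  obtain ⟨J, hJ, J', hJ', h6, h7⟩ := pigeon hH G hG hs (by
    refine (Nat.pow_le_pow_left h5 _).trans_lt ?_
    rw [← pow_mul]
    exact Nat.pow_lt_pow_right (by norm_num) (by linarith))
  obtain ⟨u, hu⟩ : ∃ u : Finset ℕ → ℕ → ℕ, ∀ J j, u J j =
      if j ∈ J then N + 1 + 2 * j + 1 else N + 1 + 2 * j := ⟨_, fun _ _ => rfl⟩
  have hinj : ∀ J, Function.Injective (u J) := fun J a b h => by
    rw [hu, hu] at h
    split_ifs at h <;> omega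
  have hf : ∀ t : ℕ, t ≠ 0 → (t.factorial : ℚ) / (t : ℚ) ^ t ≠ 0 := fun t ht =>
    div_ne_zero (Nat.cast_ne_zero.2 t.factorial_ne_zero) (pow_ne_zero _ (Nat.cast_ne_zero.2 ht))
  have hr : ∀ J, ∀ t ∈ G.image (u J), N < t ∧ t ≤ N + 2 * P := by
    intro J t ht
    obtain ⟨j, hj, rfl⟩ := mem_image.1 ht
    have := mem_range.1 (hG hj)
    rw [hu]
    split_ifs <;> omega
  have hF : ∀ J, (∏ t ∈ G.image (u J), ((t.factorial : ℚ) / (t : ℚ) ^ t)) *
      ∏ j ∈ G, ((N + 1 + 2 * j + 1 : ℕ) : ℚ) ^ (N + 1 + 2 * j) =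
      (∏ j ∈ G, (((N + 1 + 2 * j).factorial : ℚ) / ((N + 1 + 2 * j : ℕ) : ℚ) ^ (N + 1 + 2 * j))) *
      ((∏ j ∈ G, (if j ∈ J then N + 1 + 2 * j else N + 1 + 2 * j + 1) ^ (N + 1 + 2 * j) : ℕ) :
        ℚ) := by
    intro J
    rw [prod_image (hinj J).injOn, Nat.cast_prod, ← prod_mul_distrib, ← prod_mul_distrib]
    refine prod_congr rfl fun j _ => ?_
    rw [hu, Nat.cast_pow]
    split_ifs
    · exact step _ (by omega)
    · rfl
  have h8 : ∏ t ∈ G.image (u J), ((t.factorial : ℚ) / (t : ℚ) ^ t) =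
      ∏ t ∈ G.image (u J'), ((t.factorial : ℚ) / (t : ℚ) ^ t) := by
    refine mul_right_cancel₀ (prod_ne_zero_iff.2 fun j _ => pow_ne_zero _
      (Nat.cast_ne_zero.2 (Nat.succ_ne_zero _))) ((hF J).trans (Eq.trans ?_ (hF J').symm))
    rw [h7]
  have h9 : ∀ J ⊆ G, ∀ J', G.image (u J) = G.image (u J') → J ⊆ J' := by
    intro J hJ J' h j hj
    obtain ⟨i, -, hi⟩ := mem_image.1 (h ▸ mem_image_of_mem (u J) (hJ hj))
    rw [hu, hu, if_pos hj] at hi
    split_ifs at hi with h1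
    · rwa [show j = i by omega]
    · omega
  refine ⟨G.image (u J) \ G.image (u J'), G.image (u J') \ G.image (u J), fun t ht => ?_,
    fun h => h6 ?_, disjoint_sdiff_sdiff, card_sdiff_comm ?_, ?_⟩
  · rcases mem_union.1 ht with h | h
    exacts [hr J t (mem_sdiff.1 h).1, hr J' t (mem_sdiff.1 h).1]
  · have e : G.image (u J) = G.image (u J') := by
      refine Subset.antisymm (fun t ht => ?_) fun t ht => ?_
      · by_contra h1
        exact (mem_sdiff.1 (h ▸ mem_sdiff.2 ⟨ht, h1⟩)).2 ht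
      · by_contra h1
        exact (mem_sdiff.1 (h.symm ▸ mem_sdiff.2 ⟨ht, h1⟩)).2 ht
    exact Subset.antisymm (h9 J hJ J' e) (h9 J' hJ' J e.symm)
  · rw [card_image_of_injective _ (hinj J), card_image_of_injective _ (hinj J')]
  · rw [← prod_inter_mul_prod_sdiff _ (G.image (u J')), ← prod_inter_mul_prod_sdiff (G.image (u J'))
      (G.image (u J)), inter_comm (G.image (u J'))] at h8
    exact mul_left_cancel₀ (prod_ne_zero_iff.2 fun t ht => hf t (by
      have := (hr J t (mem_inter.1 ht).1).1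
      omega)) h8

theorem main : ∀ᶠ N : ℕ in atTop, ∃ T S : Finset ℕ,
    (∀ t ∈ T ∪ S, N ≤ t ∧ (t : ℝ) ≤ N + 1440 * (N : ℝ) ^ (2 / 3 : ℝ) * Real.log N) ∧
      T ≠ S ∧ Disjoint T S ∧ #T = #S ∧
        ∏ t ∈ T, ((t.factorial : ℚ) / (t : ℚ) ^ t) = ∏ u ∈ S, ((u.factorial : ℚ) / (u : ℚ) ^ u) := by
  have e1 := tendsto_natCast_atTop_atTop.eventually
    ((isLittleO_log_rpow_atTop (r := 1 / 3) (by norm_num)).bound (c := 1 / 1440) (by norm_num))
  have e2 : ∀ᶠ N : ℕ in atTop, 1 ≤ Real.log N :=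
    (Real.tendsto_log_atTop.comp tendsto_natCast_atTop_atTop).eventually_ge_atTop _
  obtain ⟨x₀, hx₀⟩ := eventually_atTop.1
    (Chebyshev.eventually_primeCounting_le (ε := 1 / 10) (by norm_num))
  have e3 := ((tendsto_rpow_atTop (y := 1 / 3) (by norm_num)).comp
    tendsto_natCast_atTop_atTop).eventually_ge_atTop x₀
  filter_upwards [e1, e2, e3, eventually_ge_atTop 1] with N h1 h2 h0 h3
  have hN : (1 : ℝ) ≤ N := by exact_mod_cast h3
  have hN0 : (0 : ℝ) < N := by linarith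
  rw [Function.comp_apply] at h0
  obtain ⟨w, hw⟩ : ∃ w : ℝ, w = (N : ℝ) ^ (1 / 3 : ℝ) := ⟨_, rfl⟩
  have w1 : 1 ≤ w := hw ▸ Real.one_le_rpow hN (by norm_num)
  have w2 : (N : ℝ) ^ (2 / 3 : ℝ) = w ^ 2 := by
    rw [hw, ← Real.rpow_natCast, ← Real.rpow_mul hN0.le]
    norm_num
  have w3 : (N : ℝ) = w ^ 3 := by
    rw [hw, ← Real.rpow_natCast, ← Real.rpow_mul hN0.le]
    norm_num
  have w4 : Real.log N = 3 * Real.log w := by rw [w3, Real.log_pow, Nat.cast_ofNat]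
  rw [← hw] at h0
  rw [← hw, Real.norm_of_nonneg (by linarith), Real.norm_of_nonneg (by linarith)] at h1
  obtain ⟨z, hz⟩ : ∃ z : ℕ, z = ⌈3 * w ^ 2⌉₊ := ⟨_, rfl⟩
  have w5 : w ≤ w ^ 2 := le_self_pow₀ w1 two_ne_zero
  have z1 : 3 * w ^ 2 ≤ z := hz ▸ Nat.le_ceil _
  have z2 : (z : ℝ) ≤ 4 * w ^ 2 := by
    have := Nat.ceil_lt_add_one (a := 3 * w ^ 2) (by positivity)
    rw [← hz] at this
    linarith
  obtain ⟨k, hk⟩ : ∃ k : ℕ, k = Nat.log 2 N := ⟨_, rfl⟩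
  have h6 := Real.log_two_gt_d9
  have k1 : ((k + 1 : ℕ) : ℝ) ≤ 3 * Real.log N := by
    have h4 : (2 : ℝ) ^ k ≤ N := by exact_mod_cast hk ▸ Nat.pow_log_le_self 2 (by omega)
    have h5 := Real.log_le_log (by positivity) h4
    rw [Real.log_pow] at h5
    have h7 : (0 : ℝ) ≤ k := Nat.cast_nonneg k
    push_cast
    nlinarith
  have k2 : ((120 * (k + 1) * z : ℕ) : ℝ) ≤ 1440 * w ^ 2 * Real.log N := by
    have h5 := mul_le_mul k1 z2 (Nat.cast_nonneg _) (by positivity)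
    rw [Nat.cast_mul, Nat.cast_mul, Nat.cast_ofNat]
    linarith
  have k3 : 1440 * w ^ 2 * Real.log N ≤ N := by
    refine (mul_le_mul_of_nonneg_left h1 (by positivity)).trans ?_
    rw [w3]
    linarith
  have k4 : (((k + 1) * (2 * z).primeCounting : ℕ) : ℝ) ≤ (14 * z : ℕ) := by
    have h4 := hx₀ ((2 * z : ℕ) : ℝ) (by push_cast; linarith)
    have h5 : 2 * Real.log w ≤ Real.log ((2 * z : ℕ) : ℝ) := by
      have h7 := Real.log_le_log (by positivity) (show w ^ 2 ≤ ((2 * z : ℕ) : ℝ) by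
        push_cast
        linarith)
      rwa [Real.log_pow, Nat.cast_ofNat] at h7
    have h7 : Real.log 4 = 2 * Real.log 2 := by
      rw [show (4 : ℝ) = 2 ^ 2 by norm_num, Real.log_pow, Nat.cast_ofNat]
    have h8 := Real.log_two_lt_d9
    rw [Nat.floor_natCast, le_div_iff₀ (by linarith), h7] at h4
    have h9 : (0 : ℝ) ≤ (2 * z).primeCounting := Nat.cast_nonneg _
    have h10 := mul_le_mul_of_nonneg_left h5 h9
    have h11 := mul_le_mul_of_nonneg_right k1 h9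
    have h12 : (0 : ℝ) ≤ z := Nat.cast_nonneg _
    rw [Nat.cast_mul, Nat.cast_mul 14, Nat.cast_ofNat]
    rw [Nat.cast_mul, Nat.cast_ofNat] at h4
    rw [w4] at h11
    rw [Nat.cast_mul, Nat.cast_ofNat] at h10
    nlinarith
  obtain ⟨T, S, a, b⟩ := core (N := N) (z := z) (l := k + 1)
    (Nat.cast_pos.1 (by linarith : (0 : ℝ) < z)) k.succ_pos (by
      have h4 := pow_le_pow_left₀ (by positivity) z1 3
      have h5 : (72 : ℝ) * (N : ℝ) ^ 2 ≤ (2 * z) ^ 3 := by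
        have h6 : 0 ≤ w ^ 6 := by positivity
        rw [w3]
        linarith
      exact_mod_cast h5) (hk ▸ Nat.lt_pow_succ_log_self (by norm_num) N) (Nat.cast_le.1 k4)
    (Nat.cast_le.1 (k2.trans k3))
  refine ⟨T, S, fun t ht => ⟨(a t ht).1.le, ?_⟩, b⟩
  have h4 : (t : ℝ) ≤ ((N + 120 * (k + 1) * z : ℕ) : ℝ) := Nat.cast_le.2 (a t ht).2
  rw [Nat.cast_add] at h4
  rw [w2]
  linarith

end Pool.Agent.P.MP_f92aba_nt.Short
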