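import Mathlib

namespace Pool.Agent.P.MP_f92aba_nt.VariantCounterexample

/-- Two different (indeed disjoint, of sizes 9 and 7) finite sets of integers at least 2 with the
same product of `t! / t^t`: T = {3,5,6,7,8,14,16,20,36} and S = {4,10,12,15,18,21,32}. -/
theorem result :
    ∃ T S : Finset ℕ, (∀ t ∈ T, 2 ≤ t) ∧ (∀ u ∈ S, 2 ≤ u) ∧ T ≠ S ∧ Disjoint T S ∧
      ∏ t ∈ T, ((Nat.factorial t : ℚ) / (t : ℚ) ^ t) =
        ∏ u ∈ S, ((Nat.factorial u : ℚ) / (u : ℚ) ^ u) := by
  refine ⟨{3, 5, 6, 7, 8, 14, 16, 20, 36}, {4, 10, 12, 15, 18, 21, 32}, by decide, by decide,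
    by decide, by decide, ?_⟩
  rw [Finset.prod_insert (by decide), Finset.prod_insert (by decide),
    Finset.prod_insert (by decide), Finset.prod_insert (by decide),
    Finset.prod_insert (by decide), Finset.prod_insert (by decide),
    Finset.prod_insert (by decide), Finset.prod_insert (by decide), Finset.prod_singleton,
    Finset.prod_insert (by decide), Finset.prod_insert (by decide),
    Finset.prod_insert (by decide), Finset.prod_insert (by decide),
    Finset.prod_insert (by decide), Finset.prod_insert (by decide), Finset.prod_singleton]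
  norm_num [Nat.factorial]

end Pool.Agent.P.MP_f92aba_nt.VariantCounterexample
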